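import Pool.Agent.Helper26.HB.Goals

set_option autoImplicit false

/-! Project HB, goal PF: the set of directions of short loops is finite and symmetric. -/

namespace Pool.Agent.Helper42.HB

open Pool.Agent.Helper26.HB
open Pool.Agent.Helper7.Horo (len Gen bb)

theorem path_word {G : Type} [Group G] (S : Finset G) (p : ℕ → G) (j : ℕ)
    (h : ∀ i < j, (p i)⁻¹ * p (i + 1) ∈ S) :
    ∃ l : List S, l.length = j ∧ p j = p 0 * (l.map (fun s : S => (s : G))).prod := by
  induction j with
  | zero => exact ⟨[], rfl, by simp⟩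
  | succ j ih =>
    obtain ⟨l, hl, hp⟩ := ih (fun i hi => h i (by omega))
    refine ⟨l ++ [⟨_, h j (by omega)⟩], by simp [hl], ?_⟩
    rw [List.map_append, List.prod_append, ← mul_assoc, ← hp]
    simp

theorem pi_one {N : Type} [Group N] {d : ℕ} (π : N → E d) (hπ : ∀ x y, π (x * y) = π x + π y) :
    π 1 = 0 := by
  have h := hπ 1 1
  rw [mul_one] at h
  exact left_eq_add.mp h

theorem pi_inv {N : Type} [Group N] {d : ℕ} (π : N → E d) (hπ : ∀ x y, π (x * y) = π x + π y)
    (x : N) : π x⁻¹ = - π x := by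
  have h := hπ x⁻¹ x
  rw [inv_mul_cancel, pi_one π hπ] at h
  exact eq_neg_of_add_eq_zero_left h.symm

theorem gPF : G_PF := by
  classical
  intro G _ S hS N _ _ d π hπ
  refine ⟨?_, ?_⟩
  · -- the extension of π by zero
    let π' : G → E d := fun g => if h : g ∈ N then π ⟨g, h⟩ else 0
    let F : (G ⧸ N) × List S → E d := fun a =>
      (1 / (a.2.length : ℝ)) • π' (a.1.out * (a.2.map (fun s : S => (s : G))).prod * (a.1.out)⁻¹)
    have hfin : (Set.univ ×ˢ {l : List S | l.length ≤ N.index} : Set ((G ⧸ N) × List S)).Finite :=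
      Set.finite_univ.prod (List.finite_length_le S N.index)
    refine (hfin.image F).subset ?_
    rintro v ⟨p, j, n, hj1, hj2, hp, hn, rfl⟩
    obtain ⟨l, hl, hpl⟩ := path_word S p j hp
    refine ⟨((QuotientGroup.mk (p 0) : G ⧸ N), l), ⟨Set.mem_univ _, by simpa [hl] using hj2⟩, ?_⟩
    -- the representative
    set t : G := (QuotientGroup.mk (p 0) : G ⧸ N).out with ht
    set w : G := (l.map (fun s : S => (s : G))).prod with hw
    have hmem : (p 0)⁻¹ * t ∈ N := by
      rw [← QuotientGroup.eq]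
      exact (QuotientGroup.out_eq' _).symm
    -- m = p 0 * t⁻¹
    have hm : p 0 * t⁻¹ ∈ N := by
      have h1 := N.inv_mem hmem
      rw [mul_inv_rev, inv_inv] at h1
      have h2 := ‹N.Normal›.conj_mem _ h1 t
      simpa [mul_assoc] using h2
    have hnw : (n : G) = p 0 * w * (p 0)⁻¹ := by
      rw [← hpl, hn]
      group
    have htw : t * w * t⁻¹ ∈ N := by
      have h1 : t * w * t⁻¹ = (p 0 * t⁻¹)⁻¹ * (n : G) * (p 0 * t⁻¹) := by
        rw [hnw]
        group
      rw [h1]
      exact N.mul_mem (N.mul_mem (N.inv_mem hm) n.2) hm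
    have hn' : n = (⟨p 0 * t⁻¹, hm⟩ : N) * ⟨t * w * t⁻¹, htw⟩ * (⟨p 0 * t⁻¹, hm⟩ : N)⁻¹ := by
      apply Subtype.ext
      push_cast
      rw [hnw]
      group
    have hπn : π n = π ⟨t * w * t⁻¹, htw⟩ := by
      rw [hn', hπ, hπ, pi_inv π hπ]
      abel
    change (1 / (l.length : ℝ)) • π' (t * w * t⁻¹) = _
    have hπ' : π' (t * w * t⁻¹) = π ⟨t * w * t⁻¹, htw⟩ := dif_pos htw
    rw [hπ', hl, hπn]
  · rintro v ⟨p, j, n, hj1, hj2, hp, hn, rfl⟩
    refine ⟨fun i => p (j - i), j, n⁻¹, hj1, hj2, ?_, ?_, ?_⟩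
    · intro i hi
      have h1 := hS.symm _ (hp (j - (i + 1)) (by omega))
      rw [mul_inv_rev, inv_inv] at h1
      rw [show j - (i + 1) + 1 = j - i by omega] at h1
      exact h1
    · simp only [Nat.sub_self, Nat.sub_zero]
      rw [hn]
      push_cast
      group
    · rw [pi_inv π hπ, smul_neg]

end Pool.Agent.Helper42.HB
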